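import Pool.Agent.helper7.ZD.Spec
import Pool.Agent.helper96.ZB.ZQU

/-!
# Row zd:GKD (MP_baa4d7_al): the numbers of characters of defect `d` agree
-/

set_option autoImplicit false

namespace Pool.Agent.ND.NY

open Pool.Agent.helper58.DC Pool.Agent.DI Pool.Agent.GR Pool.Agent.OB Pool.Agent.DR Pool.Agent.FI Pool.Agent.FI3 Pool.Agent.FI4 Pool.Agent.FI4I Pool.Agent.LE Pool.Agent.L5 Pool.Agent.NAB
open Pool.Agent.ZB (Pm Om KZ EQ BQ lQ MZc BDK)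

section

variable {G : Type} [Group G]

open Classical in
/-- The linear function of the system whose value is `ψ g`. -/
noncomputable def GKD_F (p e : ℕ) (m : Pm) (t : ℕ) (M : Ideal (integralClosure ℤ ℂ)) (χ : G → ℂ) (Z : Subgroup G) (g : G)
    (R : XX p e m M χ Z → XX p e m M χ Z → ℤ) : ℂ :=
  - ((Nat.card (Z →* ℂˣ) : ℂ)⁻¹ * ∑ᶠ θ : XX p e m M χ Z, ∑ᶠ ν : Z →* ℂˣ,
    if h : st Z t ν (θ : G → ℂ) ∈ GS p e m M χ (cz Z) Z then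
      (θ : G → ℂ) g * lam Z t ν g * ((R θ ⟨st Z t ν (θ : G → ℂ), h⟩ : ℤ) : ℂ) else 0)

theorem GKD_F_neg (p e : ℕ) (m : Pm) (t : ℕ) (M : Ideal (integralClosure ℤ ℂ)) (χ : G → ℂ) (Z : Subgroup G) (g : G)
    (R : XX p e m M χ Z → XX p e m M χ Z → ℤ) : GKD_F p e m t M χ Z g (-R) = - GKD_F p e m t M χ Z g R := by
  classical
  have h : (∑ᶠ θ : XX p e m M χ Z, ∑ᶠ ν : Z →* ℂˣ,
    if h : st Z t ν (θ : G → ℂ) ∈ GS p e m M χ (cz Z) Z then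
      (θ : G → ℂ) g * lam Z t ν g * (((-R) θ ⟨st Z t ν (θ : G → ℂ), h⟩ : ℤ) : ℂ) else 0) =
      - ∑ᶠ θ : XX p e m M χ Z, ∑ᶠ ν : Z →* ℂˣ,
    if h : st Z t ν (θ : G → ℂ) ∈ GS p e m M χ (cz Z) Z then
      (θ : G → ℂ) g * lam Z t ν g * ((R θ ⟨st Z t ν (θ : G → ℂ), h⟩ : ℤ) : ℂ) else 0 := by
    rw [← finsum_neg_distrib]
    refine finsum_congr fun θ => ?_
    rw [← finsum_neg_distrib]
    refine finsum_congr fun ν => ?_
    split_ifs with h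
    · simp only [Pi.neg_apply, Int.cast_neg, mul_neg]
    · simp
  unfold GKD_F
  rw [h, mul_neg]

theorem GKD_UM {M : Ideal (integralClosure ℤ ℂ)} (a : ℂ) : UM M (-a) ↔ UM M a := by
  have h : ∀ a : ℂ, UM M a → UM M (-a) := by
    intro a ha
    refine ⟨ha.1.neg, fun h1 => ha.2 ?_⟩
    have h2 := h1.neg
    rwa [neg_neg] at h2
  refine ⟨fun h1 => ?_, h a⟩
  have h2 := h _ h1
  rwa [neg_neg] at h2

theorem GKD_ncard {G : Type} {S : Set (G → ℂ)} (Q : (G → ℂ) → Prop) :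
    Nat.card {ψ : {ψ : G → ℂ // ψ ∈ S} // Q (ψ : G → ℂ)} = {ψ : G → ℂ | ψ ∈ S ∧ Q ψ}.ncard := by
  rw [← Nat.card_coe_set_eq]
  exact Nat.card_congr (Equiv.subtypeSubtypeEquivSubtypeInter (fun ψ : G → ℂ => ψ ∈ S) Q)

end

theorem GKD (hKCO : KCO_stmt) (hGAC : GAC_stmt) (hGSY : GSY_stmt) (hGVF : GVF_stmt) (hGNV : GNV_stmt) (hGDF : GDF_stmt) (hGQQ : GQQ_stmt) (hGKE : GKE_stmt) (hGST : GST_stmt) (hGBC : GBC_stmt) (hZXU : Pool.Agent.ZB.ZXU_stmt) (hZQU : Pool.Agent.ZB.ZQU_stmt) (hZQD : Pool.Agent.ZB.ZQD_stmt) (hZHE : Pool.Agent.ZB.ZHE_stmt) (hNUF : NUF_stmt) (hNUD : NUD_stmt) (hNUB : NUB_stmt) (hNDG : NDG_stmt) (hYE1 : YE1_stmt)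
    (hZE1 : Pool.Agent.ZB.ZE1_stmt) (hZE2 : Pool.Agent.ZB.ZE2_stmt) (hZGP : ZGP_stmt) (hTEX : TEX_stmt) (hTPR : Pool.Agent.FI.TPR_stmt) (hB2 : B2_stmt) : GKD_stmt := by
  classical
  intro p m M hM hk hw G _ _ hMN d χ hχ D₀ x₀ hD hKD
  have hp : p.Prime := hM.pr
  have fin : ∀ K : Subgroup G, (IrrOn K).Finite := fun K => (hB2 G K).1
  have hχ' : χ ∈ IrrOn (⊤ : Subgroup G) := by
    rw [(hTPR p M hM G).1]
    exact hχ
  obtain ⟨e, hY⟩ := (hYE1 p hp m G D₀).2 hKD hk hw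
  obtain ⟨-, hem, -, -, hYc, -, -⟩ := (hYE1 p hp m G D₀).1 e hY
  have hme3 : m.a + 3 ≤ e := by omega
  have hcard := hGKE p m M hM G χ hχ D₀ x₀ hD hKD hMN
  obtain ⟨η₀, hη₀⟩ := hZXU p m M hM G ⊤ χ hχ' D₀ x₀ hD hKD
  have hQ := (hZQU p m M hM G ⊤ (EQ p m.s D₀) χ hχ' D₀ x₀ hD hKD η₀ hη₀).1
  rw [top_inf_eq] at hQ hη₀
  obtain ⟨h1, h2, Q, x, hQx, hKQ, hEQ⟩ := hη₀
  -- the defect group of the block of `nz E`
  obtain ⟨-, -, -, q1, q2, q3, q4⟩ := hZE1 p hp m G Q hKQ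
  obtain ⟨-, -, -, d1, d2, d3, d4⟩ := hZE1 p hp m G D₀ hKD
  rw [hEQ] at q1 q2 q3 q4
  have hcz : (⊤ : Subgroup G) ⊓ cz Q ≤ nz (EQ p m.s D₀) := by
    rw [top_inf_eq]
    exact q2.trans q3
  have hcardQ : Nat.card Q = Nat.card D₀ := by
    refine hZQD p M hM G ⊤ (nz (EQ p m.s D₀)) le_top χ hχ' D₀ x₀ hD η₀ h1 h2 Q x hQx hcz ?_
    intro l _ hle
    obtain ⟨-, -, e3⟩ := hZE2 p hp m G Q hKQ
    obtain ⟨e1, -, -⟩ := hZE2 p hp m G D₀ hKD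
    have h3 : EQ p m.s D₀ = cjS l (EQ p m.s D₀) := by
      have h4 := e1 (cjS l Q) (e3 l).1 hle
      rw [(e3 l).2, hEQ] at h4
      exact h4.symm
    refine le_trans ?_ q3
    intro g hg
    rw [mem_cjS, inv_inv] at hg
    have h5 : l * g * l⁻¹ ∈ cz (EQ p m.s D₀) := d1 hg
    rw [Subgroup.mem_centralizer_iff] at h5
    rw [Subgroup.mem_centralizer_iff]
    intro b hb
    have h6 : l * b * l⁻¹ ∈ EQ p m.s D₀ := by
      rw [h3, mem_cjS]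
      have h7 : l⁻¹ * (l * b * l⁻¹) * l = b := by group
      rwa [h7]
    have h7 := h5 _ h6
    have h8 : l⁻¹ * ((l * b * l⁻¹) * (l * g * l⁻¹)) * l = l⁻¹ * ((l * g * l⁻¹) * (l * b * l⁻¹)) * l := by rw [h7]
    have h9 : l⁻¹ * ((l * b * l⁻¹) * (l * g * l⁻¹)) * l = b * g := by group
    have h10 : l⁻¹ * ((l * g * l⁻¹) * (l * b * l⁻¹)) * l = g * b := by group
    rw [h9, h10] at h8
    exact h8
  obtain ⟨l, -, hle, -⟩ := hZHE p M hM G ⊤ (nz (EQ p m.s D₀)) le_top χ hχ' D₀ x₀ hD η₀ h1 h2 Q x hQx hcz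
  have hlQ : cjS l Q = D₀ := by
    refine Subgroup.eq_of_le_of_card_ge hle ?_
    rw [Pool.Agent.ZB.ZQU_card, hcardQ]
  have hYQ : KY p e m Q := by
    have h3 := hYc l⁻¹
    rw [← hlQ, ← Pool.Agent.ZB.ZQU_cjS_mul, inv_mul_cancel, Pool.Agent.ZB.ZQU_cjS_one] at h3
    exact h3
  obtain ⟨-, -, -, -, -, hEgQ, z, hzQ, hzc, hzo⟩ := (hYE1 p hp m G Q).1 e hYQ
  have hEz : Eg p e z = EQ p m.s D₀ := by rw [hEgQ z hzQ hzo, hEQ]
  have h3 : Ucl p e m M (nz (EQ p m.s D₀)) η₀ z x := by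
    have hzC := hQx.le hzQ
    refine ⟨?_, hQx.reg, ?_, hzC.1, hQx.mem, hzo, hNDG p M hM G _ η₀ h1 Q x hQx z hzQ hzc, Q, x, hQx, hYQ⟩
    · refine ⟨e, ?_⟩
      rw [← hzo]
      exact pow_orderOf_eq_one z
    · exact (Subgroup.mem_centralizer_singleton_iff.1 hzC.2)
  have hU : Ucl p e m M (⊤ : Subgroup G) χ z x := by
    refine hNUF p e m M hM G ⊤ (EQ p m.s D₀) η₀ ?_ z x ?_ hEz χ h2 ⟨D₀, x₀, hD, hY⟩
    · rw [top_inf_eq]
      exact h1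
    · rw [top_inf_eq]
      exact h3
  rw [← hEz] at hQ h1 h3 hcard ⊢
  obtain ⟨t, ht⟩ := hTEX p hp e G
  set Z := Zg p e m.a z with hZ
  have hZD : ZD p e m t M χ Z z x := ⟨hem, ht, hχ', hU, rfl⟩
  obtain ⟨-, -, -, g4, g5, g6, -, -⟩ := hZGP p e m.a hp hme3 G z hU.pe hU.od
  have hcN : nz Z ≤ nz (Eg p e z) := g5.2.2.1
  have hcc : cz Z ≤ nz Z := g5.2.1
  have hcent : Subgroup.centralizer ({z * x} : Set G) ≤ cz Z := g6.1 x hU.re hU.co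
  -- the sets
  have hGT : GS p e m M χ (⊤ : Subgroup G) Z = Bl M (⊤ : Subgroup G) χ :=
    (hGBC p e m M hM hme3 G χ ⊤ Z).2.1 hχ' z x hU rfl
  have hUN : ∀ ψ ∈ BQ p m M (⊤ : Subgroup G) (nz (Eg p e z)) (Eg p e z) χ, Ucl p e m M (nz (Eg p e z)) ψ z x := by
    intro ψ hψ
    rw [hQ] at hψ
    exact (hNUB p e m M hM G _ η₀ z x h3).1 ψ hψ.2.symm
  have hGN : GS p e m M χ (nz (Eg p e z)) Z = BQ p m M (⊤ : Subgroup G) (nz (Eg p e z)) (Eg p e z) χ := by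
    ext ψ
    constructor
    · rintro ⟨a1, a2, z', x', a3, a4⟩
      obtain ⟨D', y', b1, b2, b3, b4⟩ := (hNUD p e m M hM G _ ψ a1 z' x' a3).2
      obtain ⟨c1, -, -, -, -, c6, -⟩ := (hYE1 p hp m G D').1 e b4
      refine ⟨a1, a2, D', y', b1, c1, ?_⟩
      rw [← c6 z' b2 a3.od]
      exact g4.2 z' a3.pe a3.od a4
    · intro hψ
      exact ⟨hψ.1, hψ.2.1, z, x, hUN ψ hψ, rfl⟩
  have hUT' : ∀ ψ ∈ GS p e m M χ (⊤ : Subgroup G) Z, Ucl p e m M (⊤ : Subgroup G) ψ z x := by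
    intro ψ hψ
    rw [hGT] at hψ
    exact (hNUB p e m M hM G _ χ z x hU).1 ψ hψ.2.symm
  have hUN' : ∀ ψ ∈ GS p e m M χ (nz (Eg p e z)) Z, Ucl p e m M (nz (Eg p e z)) ψ z x := by
    intro ψ hψ
    rw [hGN] at hψ
    exact hUN ψ hψ
  have finX : Finite (XX p e m M χ Z) := ((fin _).subset fun θ hθ => hθ.1).to_subtype
  have finP : ∀ L : Subgroup G, Finite (PP p e m M χ L Z) := fun L =>
    ((fin L).subset fun θ hθ => hθ.1).to_subtype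
  obtain ⟨act, hact, hAcn, -⟩ := hGAC p e m t M hM G χ Z z x hZD (nz Z) le_rfl hcc
  obtain ⟨Φ, κ', hK⟩ := hKCO (XX p e m M χ Z) (nz Z) ((cz Z).subgroupOf (nz Z)) act
    (fun θ θ' => orb Z t (θ : G → ℂ) (θ' : G → ℂ)) (p - 1) hAcn
  set v : ℤ := (padicValNat p (Nat.card (Subgroup.centralizer ({z * x} : Set G))) : ℤ) with hv
  set P : (XX p e m M χ Z → XX p e m M χ Z → ℤ) → Prop := fun R =>
    UM M ((p : ℂ) ^ (d - v) * GKD_F p e m t M χ Z (z * x) R) with hP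
  have hPn : ∀ R, P (-R) ↔ P R := by
    intro R
    rw [hP]
    simp only [GKD_F_neg, mul_neg]
    exact GKD_UM _
  have main : ∀ L : Subgroup G, cz Z ≤ L → nz Z ≤ L → (∀ ψ ∈ GS p e m M χ L Z, Ucl p e m M L ψ z x) →
      ∃ (w : PP p e m M χ L Z → ℤ) (D : PP p e m M χ L Z → XX p e m M χ Z → XX p e m M χ Z → ℤ),
        (∀ ψ θ θ', ((D ψ θ θ' : ℤ) : ℂ) = if orb Z t (θ : G → ℂ) (θ' : G → ℂ) then mt (cz Z) (ψ : G → ℂ) (θ : G → ℂ) - mt (cz Z) (ψ : G → ℂ) (θ' : G → ℂ) else 0) ∧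
        Sys ((cz Z).subgroupOf (nz Z)) act (fun θ θ' => orb Z t (θ : G → ℂ) (θ' : G → ℂ)) w D ∧
        (∀ ψ, ∃ a b, D ψ a b ≠ 0) ∧ ∀ ψ, P (D ψ) ↔ Defect p L (ψ : G → ℂ) d := by
    intro L hcL hnL hUL
    obtain ⟨w, D, hD, hS⟩ := hGSY p e m t M hM G χ Z z x hZD L (nz Z) hcL (inf_eq_left.2 hnL).symm act hact
    refine ⟨w, D, hD, hS, ?_, ?_⟩
    · intro ψ
      obtain ⟨θ, hθ, θ', hθ', ho, hne⟩ := hGNV p e m t M hM G χ Z z x hZD L hcL ψ.1 ψ.2 (hUL ψ.1 ψ.2)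
      refine ⟨⟨θ, hθ⟩, ⟨θ', hθ'⟩, fun h0 => hne ?_⟩
      have h5 := hD ψ ⟨θ, hθ⟩ ⟨θ', hθ'⟩
      rw [h0, if_pos ho, Int.cast_zero] at h5
      exact sub_eq_zero.1 h5.symm
    · intro ψ
      have h5 : GKD_F p e m t M χ Z (z * x) (D ψ) = (ψ : G → ℂ) (z * x) := by
        rw [hGVF p e m t M hM G χ Z z x hZD L hcL ψ.1 ψ.2]
        unfold GKD_F
        congr 2
        rw [← finsum_set_coe_eq_finsum_mem]
        refine finsum_congr fun θ => finsum_congr fun ν => ?_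
        rw [dif_pos (hGST p e m t M hM G χ Z z x hZD θ.1 θ.2 ν).1, hD, if_pos ⟨ν, rfl⟩]
      have h6 := hGDF p e m M hM G L ψ.1 ψ.2.1 z x (hUL ψ.1 ψ.2) (hcent.trans hcL) d
      rw [h6, ← h5]
  obtain ⟨w₁, D₁, c1, c2, c3, c4⟩ := main (nz (Eg p e z)) (hcc.trans hcN) hcN hUN'
  obtain ⟨w₂, D₂, d1, d2, d3, d4⟩ := main (⊤ : Subgroup G) le_top le_top hUT'
  obtain ⟨-, k1, k2⟩ := @hK (PP p e m M χ (nz (Eg p e z)) Z) (finP _) w₁ D₁ c2 c3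
  obtain ⟨-, -, k4⟩ := @hK (PP p e m M χ (⊤ : Subgroup G) Z) (finP _) w₂ D₂ d2 d3
  have hcN1 : Nat.card (PP p e m M χ (nz (Eg p e z)) Z) = Φ := by
    refine k1 ?_ ?_
    · intro ψ a b
      by_cases ho : orb Z t (a : G → ℂ) (b : G → ℂ)
      · have h5 := c1 ψ a b
        rw [if_pos ho] at h5
        have h6 := (hGQQ p e m t M hM G χ Z z x hZD ψ.1 ψ.2 a.1 a.2 b.1 b.2 ho).1
        rw [← h5] at h6
        rcases h6 with h6 | h6 | h6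
        · have h7 : D₁ ψ a b = 0 := by exact_mod_cast h6
          rw [h7]
          norm_num
        · have h7 : D₁ ψ a b = 1 := by exact_mod_cast h6
          rw [h7]
          norm_num
        · have h7 : D₁ ψ a b = -1 := by exact_mod_cast h6
          rw [h7]
          norm_num
      · rw [c2.nr ψ a b ho]
        norm_num
    · intro ψ a b a' b' hne hne'
      have ho : orb Z t (a : G → ℂ) (b : G → ℂ) := by
        by_contra ho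
        exact hne (c2.nr ψ a b ho)
      have ho' : orb Z t (a' : G → ℂ) (b' : G → ℂ) := by
        by_contra ho'
        exact hne' (c2.nr ψ a' b' ho')
      have h5 := c1 ψ a b
      have h5' := c1 ψ a' b'
      rw [if_pos ho] at h5
      rw [if_pos ho'] at h5'
      obtain ⟨h, hh, h6⟩ := (hGQQ p e m t M hM G χ Z z x hZD ψ.1 ψ.2 a.1 a.2 b.1 b.2 ho).2 a'.1 a'.2 b'.1 b'.2 ho'
        (fun h0 => hne (by
          have h7 : ((D₁ ψ a b : ℤ) : ℂ) = 0 := by rw [h5, h0, sub_self]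
          exact_mod_cast h7))
        (fun h0 => hne' (by
          have h7 : ((D₁ ψ a' b' : ℤ) : ℂ) = 0 := by rw [h5', h0, sub_self]
          exact_mod_cast h7))
      refine ⟨⟨h, hh⟩, ?_⟩
      show orb Z t (act ⟨h, hh⟩ a : G → ℂ) (a' : G → ℂ)
      rw [hact]
      exact h6
  have hcT : Nat.card (PP p e m M χ (⊤ : Subgroup G) Z) = Φ := by
    rw [← hcN1]
    have h5 : Nat.card (PP p e m M χ (⊤ : Subgroup G) Z) = (GS p e m M χ (⊤ : Subgroup G) Z).ncard :=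
      Nat.card_coe_set_eq _
    have h6 : Nat.card (PP p e m M χ (nz (Eg p e z)) Z) = (GS p e m M χ (nz (Eg p e z)) Z).ncard :=
      Nat.card_coe_set_eq _
    rw [h5, h6, hGT, hGN]
    exact hcard
  have e1 := k2 hcN1 P hPn
  have e2 := k4 hcT P hPn
  have e3 : Nat.card {ψ : PP p e m M χ (nz (Eg p e z)) Z // P (D₁ ψ)} =
      {ψ : G → ℂ | ψ ∈ GS p e m M χ (nz (Eg p e z)) Z ∧ Defect p (nz (Eg p e z)) ψ d}.ncard := by
    rw [← GKD_ncard (S := GS p e m M χ (nz (Eg p e z)) Z) (fun ψ => Defect p (nz (Eg p e z)) ψ d)]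
    exact Nat.card_congr (Equiv.subtypeEquivRight c4)
  have e4 : Nat.card {ψ : PP p e m M χ (⊤ : Subgroup G) Z // P (D₂ ψ)} =
      {ψ : G → ℂ | ψ ∈ GS p e m M χ (⊤ : Subgroup G) Z ∧ Defect p (⊤ : Subgroup G) ψ d}.ncard := by
    rw [← GKD_ncard (S := GS p e m M χ (⊤ : Subgroup G) Z) (fun ψ => Defect p (⊤ : Subgroup G) ψ d)]
    exact Nat.card_congr (Equiv.subtypeEquivRight d4)
  rw [← hGT, ← hGN, ← e4, ← e3, e1, e2]

end Pool.Agent.ND.NY
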